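import Pool.Agent.helper44.AX.SpecG

set_option autoImplicit false

namespace Pool.Agent.AX

open Matrix Polynomial Topology Filter Pool.Agent.GO Pool.Agent.AR Pool.Agent.RG Pool.Agent.HZ
  Pool.Agent.DS Pool.Agent.FLD MeasureTheory NumberField

theorem PRD_closed {Γ F : Type*} [Group Γ] [TopologicalSpace Γ] [NormedField F] (ρ : Γ →* Matrix (Fin 2) (Fin 2) F)
    (hρ : Continuous ρ) : IsClosed (adKer ρ : Set Γ) := by
  have e : (adKer ρ : Set Γ) = {g | ρ g 0 1 = 0} ∩ ({g | ρ g 1 0 = 0} ∩ {g | ρ g 0 0 = ρ g 1 1}) := by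
    ext g
    constructor
    · rintro ⟨c, hc⟩
      refine ⟨?_, ?_, ?_⟩
      · show ρ g 0 1 = 0
        rw [hc]; simp
      · show ρ g 1 0 = 0
        rw [hc]; simp
      · show ρ g 0 0 = ρ g 1 1
        rw [hc]; simp
    · rintro ⟨h1, h2, h3⟩
      refine ⟨ρ g 0 0, ?_⟩
      ext a b
      fin_cases a <;> fin_cases b
      · simp
      · simpa using h1
      · simpa using h2
      · simpa using h3.symm
  rw [e]
  have hc : ∀ a b : Fin 2, Continuous fun g => ρ g a b := fun a b => hρ.matrix_elem a b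
  exact (isClosed_eq (hc 0 1) continuous_const).inter
    ((isClosed_eq (hc 1 0) continuous_const).inter (isClosed_eq (hc 0 0) (hc 1 1)))

theorem PRD : PRD_stmt := by
  intro Γ _ _ _ _ r n V hV J F _ ρ hρ g hg
  have hz : ∀ j, ∃ z : Γ, z ∈ kerAll V ∧ (∀ k, k ≠ j → z ∈ adKer (ρ k)) ∧ z⁻¹ * g j ∈ adKer (ρ j) := by
    intro j
    have := hg j
    unfold cross at this
    rw [Subgroup.mem_sup_of_normal_right] at this
    obtain ⟨z, hz, k, hk, e⟩ := this
    refine ⟨z, hz.1, fun k' hk' => ?_, ?_⟩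
    · have h2 := hz.2
      exact (Subgroup.mem_iInf.mp h2) ⟨k', hk'⟩
    · rw [← e, inv_mul_cancel_left]
      exact hk
  choose z hz1 hz2 hz3 using hz
  have hfin : ∀ A : Finset J, ∃ h ∈ kerAll V, (∀ j ∈ A, h⁻¹ * z j ∈ adKer (ρ j)) ∧ ∀ j, j ∉ A → h ∈ adKer (ρ j) := by
    classical
    intro A
    induction A using Finset.induction_on with
    | empty => exact ⟨1, (kerAll V).one_mem, fun j hj => absurd hj (Finset.notMem_empty j), fun j _ => (adKer (ρ j)).one_mem⟩
    | insert a A ha ih =>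
      obtain ⟨h, h1, h2, h3⟩ := ih
      refine ⟨h * z a, (kerAll V).mul_mem h1 (hz1 a), ?_, ?_⟩
      · intro j hj
        rw [Finset.mem_insert] at hj
        by_cases hja : j = a
        · subst hja
          have e : (h * z j)⁻¹ * z j = (z j)⁻¹ * h⁻¹ * ((z j)⁻¹)⁻¹ := by group
          rw [e]
          exact (adKer_normal (ρ j)).conj_mem _ ((adKer (ρ j)).inv_mem (h3 j ha)) _
        · have hjA : j ∈ A := hj.resolve_left hja
          have e : (h * z a)⁻¹ * z j = (z a)⁻¹ * (h⁻¹ * z j) := by group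
          rw [e]
          exact (adKer (ρ j)).mul_mem ((adKer (ρ j)).inv_mem (hz2 a j hja)) (h2 j hjA)
      · intro j hj
        rw [Finset.mem_insert, not_or] at hj
        exact (adKer (ρ j)).mul_mem (h3 j hj.2) (hz2 a j hj.1)
  have hkc : IsClosed (kerAll V : Set Γ) := by
    have e : (kerAll V : Set Γ) = ⋂ (q : ℕ) (_ : Fact q.Prime) (i : Fin r), {x | V q i x = 1} := by
      ext x
      simp only [kerAll, SetLike.mem_coe, Subgroup.mem_iInf, Set.mem_iInter, Set.mem_setOf_eq, kerV, MonoidHom.mem_ker]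
    rw [e]
    exact isClosed_iInter fun q => isClosed_iInter fun hq => isClosed_iInter fun i =>
      isClosed_eq (hV q i) continuous_const
  let t : Option J → Set Γ := fun o => match o with
    | none => (kerAll V : Set Γ)
    | some j => {h | h⁻¹ * g j ∈ adKer (ρ j)}
  have htc : ∀ o, IsClosed (t o) := by
    intro o
    cases o with
    | none => exact hkc
    | some j =>
      exact (PRD_closed (ρ j) (hρ j)).preimage ((continuous_inv).mul continuous_const)
  have hne : ∀ s : Finset (Option J), (⋂ o ∈ s, t o).Nonempty := by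
    intro s
    obtain ⟨h, h1, h2, h3⟩ := hfin s.eraseNone
    refine ⟨h, ?_⟩
    simp only [Set.mem_iInter]
    intro o ho
    cases o with
    | none => exact h1
    | some j =>
      have hj : j ∈ s.eraseNone := Finset.mem_eraseNone.mpr ho
      show h⁻¹ * g j ∈ adKer (ρ j)
      have e : h⁻¹ * g j = (h⁻¹ * z j) * ((z j)⁻¹ * g j) := by group
      rw [e]
      exact (adKer (ρ j)).mul_mem (h2 j hj) (hz3 j)
  obtain ⟨h, hh⟩ := CompactSpace.iInter_nonempty htc hne
  rw [Set.mem_iInter] at hh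
  exact ⟨h, hh none, fun j => hh (some j)⟩

end Pool.Agent.AX
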